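import Pool.Agent.V8H91.TP.Pow

set_option autoImplicit false
set_option linter.unusedSectionVars false

/-!
# The growth of the weights of the inertia invariants of the powers of a variety
-/

open Module TensorProduct

namespace Pool.Agent.V8H91.TP

universe u v w

open Pool.Agent.Y143 Pool.Agent.Y136.UB Pool.Agent.Y163.MW Pool.Agent.Y163.MW.Coh
  Pool.Agent.H914 Pool.Agent.V8H91.ML

section

variable {K : Type u} [Field K] {Ω : Type w} [Field Ω] [CharZero Ω]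
  {T : Theory.{u, v, w} K Ω} {q : ℕ}

/-- The inductive step. -/
theorem step {R R₁ R₂ R₃ : Coh.{v, w} Ω} (hq : 0 < q) {κ : R.V ⊗[Ω] R₁.V ≃ₗ[Ω] R₂.V}
    (hκ : IsKunneth R R₁ R₂ κ) {κ' : R.V ⊗[Ω] R₂.V ≃ₗ[Ω] R₃.V} (hκ' : IsKunneth R R₂ R₃ κ')
    {x : R.V} {y : R₁.V} {k : ℕ} (hx : (R.N ^ (k + 1)) x = 0) (hx0 : (R.N ^ k) x ≠ 0)
    {c c' : ℤ} (hc : x ∈ R.tot q c) (hy : y ∈ R₁.tot q c') (hy0 : y ≠ 0) (hyN : R₁.N y = 0)
    (hRN : ∀ c, ∀ x ∈ R.tot q c, R.N x ∈ R.tot q (c - 2))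
    (hRN' : ∀ c, ∀ x ∈ R₂.tot q c, R₂.N x ∈ R₂.tot q (c - 2)) :
    ∃ z ∈ R₃.tot q (c + (c + c') - 2 * k), z ≠ 0 ∧ R₃.N z = 0 := by
  have h1 := lemQ hκ hyN x
  have h2 : tm κ x y ∈ R₂.tot q (c + c') := kunneth_tot hq hκ hc hy
  have h3 : (R₂.N ^ (k + 1)) (tm κ x y) = 0 := by
    rw [h1, hx]
    unfold tm
    rw [TensorProduct.zero_tmul, map_zero]
  have h4 : (R₂.N ^ k) (tm κ x y) ≠ 0 := by
    rw [h1]
    intro h5
    exact tmul_ne hx0 hy0 (κ.injective (by rw [map_zero]; exact h5))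
  exact lemP hq hκ' hx hx0 h3 h4 hc h2 hRN hRN'

/-- The lower bound: invariants of large weight on the even powers. -/
theorem invPow (hT : T.IsLocal q) (hq : 1 < q) (X : SmVar.{u} K) {x : (T.H X).V} {k : ℕ} {c : ℤ}
    (hc : x ∈ (T.H X).tot q c) (hx : ((T.H X).N ^ (k + 1)) x = 0)
    (hx0 : ((T.H X).N ^ k) x ≠ 0) (r : ℕ) :
    ∃ y ∈ (T.H (pow X (2 * r + 1))).tot q (2 * (r + 1) * (c - k)), y ≠ 0 ∧
      (T.H (pow X (2 * r + 1))).N y = 0 := by
  induction r with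
  | zero =>
    obtain ⟨κ, hκ⟩ : ∃ κ, IsKunneth (T.H X) (T.H X) (T.H (pow X (2 * 0 + 1))) κ := hT.kunneth X X
    obtain ⟨z, hz, h0, hN⟩ := lemP (by omega) hκ hx hx0 hx hx0 hc hc (N_tot hq (hT.coh X))
      (N_tot hq (hT.coh X))
    refine ⟨z, ?_, h0, hN⟩
    rw [show (2 : ℤ) * (((0 : ℕ) : ℤ) + 1) * (c - k) = c + c - 2 * k by push_cast; ring]
    exact hz
  | succ r ih =>
    obtain ⟨y, hy, hy0, hyN⟩ := ih
    obtain ⟨κ, hκ⟩ : ∃ κ, IsKunneth (T.H X) (T.H (pow X (2 * r + 1)))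
      (T.H (pow X (2 * r + 2))) κ := hT.kunneth X (pow X (2 * r + 1))
    obtain ⟨κ', hκ'⟩ : ∃ κ, IsKunneth (T.H X) (T.H (pow X (2 * r + 2)))
      (T.H (pow X (2 * (r + 1) + 1))) κ := hT.kunneth X (pow X (2 * r + 2))
    obtain ⟨z, hz, h0, hN⟩ := step (by omega) hκ hκ' hx hx0 hc hy hy0 hyN (N_tot hq (hT.coh X))
      (N_tot hq (hT.coh _))
    refine ⟨z, ?_, h0, hN⟩
    rw [show (2 : ℤ) * (((r + 1 : ℕ) : ℤ) + 1) * (c - k) =
      c + (c + 2 * (r + 1) * (c - k)) - 2 * k by push_cast; ring]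
    exact hz

end

section

variable {Ω : Type w} [Field Ω] [CharZero Ω] [IsAlgClosed Ω] {R : Coh.{v, w} Ω} {q : ℕ}

/-- The sum of the excesses is zero. -/
lemma sum_wt (hq : 1 < q) (hR : R.IsCoh q) (S : Strings (R.tot q) R.N) : ∑ p, S.wt p = 0 := by
  have h := finsum_card S.wt (fun c => c)
  rw [← h]
  apply finsum_odd
  intro c
  have H := adp_strings S
  rw [← H.finrank_tot hq hR, ← H.finrank_tot hq hR, ← finrank_tot_neg hq hR]
  ring

lemma sum_ct (S : Strings (R.tot q) R.N) : ∑ p, S.ct p = 0 := by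
  rw [Fintype.sum_sigma]
  refine Finset.sum_eq_zero fun s _ => ?_
  have h : ∑ i : Fin (S.len s + 1), S.ct ⟨s, i⟩ = ∑ i : Fin (S.len s + 1), S.ct ⟨s, Fin.rev i⟩ :=
    (Equiv.sum_comp Fin.revPerm (fun i => S.ct ⟨s, i⟩)).symm
  have h2 : ∀ i : Fin (S.len s + 1), S.ct ⟨s, Fin.rev i⟩ = - S.ct ⟨s, i⟩ := by
    intro i
    show (S.len s : ℤ) - 2 * ((Fin.rev i : Fin (S.len s + 1)) : ℕ) =
      -((S.len s : ℤ) - 2 * (i : ℕ))
    rw [Fin.val_rev]
    have := i.2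
    omega
  rw [Finset.sum_congr rfl fun i _ => h2 i, Finset.sum_neg_distrib] at h
  omega

/-- The greatest deviation. -/
theorem exists_greatest (hq : 1 < q) (hR : R.IsCoh q) [Nontrivial R.V]
    (S : Strings (R.tot q) R.N) : ∃ d : ℕ, (∃ s, S.top s - S.len s = d) ∧
      (∀ s, S.top s - S.len s ≤ d) ∧ ((∀ m, R.MWPure q m) ↔ d = 0) := by
  have hP : Nonempty S.P := S.b.index_nonempty
  obtain ⟨⟨s0, i0⟩⟩ := hP
  have : Nonempty S.ι := ⟨s0⟩
  obtain ⟨s, hs⟩ := Finite.exists_max (fun s => S.top s - (S.len s : ℤ))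
  have hsum : ∑ p, (S.wt p - S.ct p) = 0 := by
    rw [Finset.sum_sub_distrib, sum_wt hq hR S, sum_ct S, sub_zero]
  have hval : ∀ p, S.wt p - S.ct p = S.top p.1 - S.len p.1 := by
    intro p
    unfold Strings.wt Strings.ct
    ring
  have h0 : 0 ≤ S.top s - (S.len s : ℤ) := by
    by_contra hcon
    push Not at hcon
    have h1 : ∑ p, (S.wt p - S.ct p) < 0 := by
      apply Finset.sum_neg (fun p _ => ?_) ⟨⟨s0, i0⟩, Finset.mem_univ _⟩
      rw [hval]
      exact lt_of_le_of_lt (hs p.1) hcon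
    omega
  refine ⟨(S.top s - S.len s).toNat, ⟨s, by omega⟩, fun s' => by have := hs s'; omega, ?_⟩
  rw [mw_iff hq hR S]
  constructor
  · intro h
    have := h s
    omega
  · intro h
    have h2 : ∀ p ∈ Finset.univ, 0 ≤ -(S.wt p - S.ct p) := by
      intro p _
      rw [hval]
      have := hs p.1
      omega
    have h3 := (Finset.sum_eq_zero_iff_of_nonneg h2).1 (by rw [Finset.sum_neg_distrib, hsum, neg_zero])
    intro s'
    have h4 := h3 ⟨s', 0⟩ (Finset.mem_univ _)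
    rw [hval] at h4
    have h5 : -(S.top s' - (S.len s' : ℤ)) = 0 := h4
    omega

/-- The first vector of a string. -/
lemma pow_string (S : Strings (R.tot q) R.N) (s : S.ι) (j : ℕ) (hj : j < S.len s + 1) :
    (R.N ^ j) (S.b ⟨s, 0⟩) = S.b ⟨s, ⟨j, hj⟩⟩ := by
  induction j with
  | zero => rfl
  | succ j ih =>
    rw [pow_succ', Module.End.mul_apply, ih (by omega)]
    exact S.succ s ⟨j, by omega⟩

lemma pow_string' (S : Strings (R.tot q) R.N) (s : S.ι) :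
    (R.N ^ (S.len s + 1)) (S.b ⟨s, 0⟩) = 0 := by
  rw [pow_succ', Module.End.mul_apply, pow_string S s (S.len s) (by omega)]
  exact S.last s

end

section

variable {K : Type u} [Field K] {Ω : Type w} [Field Ω] [CharZero Ω] [IsAlgClosed Ω]
  {T : Theory.{u, v, w} K Ω} {q : ℕ}

/-- The growth of the excesses of the kernel of `N` on the powers. -/
theorem growth (hT : T.IsLocal q) (hq : 1 < q) (X : SmVar.{u} K) [Nontrivial (T.H X).V] :
    ∃ d : ℕ, IsGreatest (Deviation (T.H X) q) d ∧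
      (∀ n, ∀ c ∈ InvExcess (T.H (pow X n)) q, c ≤ (n + 1) * d) ∧
      (∀ r : ℕ, IsGreatest (InvExcess (T.H (pow X (2 * r + 1))) q) (2 * (r + 1) * d)) ∧
      ((∀ m, (T.H X).MWPure q m) ↔ d = 0) := by
  obtain ⟨S⟩ := exists_strings hq (hT.coh X)
  obtain ⟨d, ⟨s, hs⟩, hle, hmw⟩ := exists_greatest hq (hT.coh X) S
  have hval : ∀ p, S.wt p - S.ct p = S.top p.1 - S.len p.1 := by
    intro p
    unfold Strings.wt Strings.ct
    ring
  have hup : ∀ n, ∀ c ∈ InvExcess (T.H (pow X n)) q, c ≤ (n + 1) * d := by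
    intro n c hc
    refine excess_le hq (hT.coh _) (adp_pow hT hq X (adp_strings S) n) (fun g => ?_) hc
    rw [← Finset.sum_sub_distrib]
    calc ∑ k, (S.wt (g k) - S.ct (g k)) ≤ ∑ _k : Fin (n + 1), (d : ℤ) :=
          Finset.sum_le_sum fun k _ => by rw [hval]; exact hle _
      _ = (n + 1) * d := by
          rw [Finset.sum_const, Finset.card_univ, Fintype.card_fin, nsmul_eq_mul]
          push_cast
          ring
  refine ⟨d, ⟨?_, ?_⟩, hup, fun r => ⟨?_, ?_⟩, hmw⟩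
  · rw [mem_deviation hq (hT.coh X) (adp_strings S)]
    exact ⟨⟨s, 0⟩, by rw [hval]; exact hs⟩
  · intro d' hd'
    rw [mem_deviation hq (hT.coh X) (adp_strings S)] at hd'
    obtain ⟨p, hp⟩ := hd'
    rw [← hp, hval]
    exact hle _
  · rw [mem_invExcess hq (hT.coh _)]
    have h0 : S.b ⟨s, 0⟩ ∈ (T.H X).tot q (S.top s) := by
      have := S.mem s 0
      simpa using this
    obtain ⟨y, hy, hy0, hyN⟩ := invPow hT hq X h0 (pow_string' S s)
      (by rw [pow_string S s (S.len s) (by omega)]; exact S.b.ne_zero _) r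
    rw [hs] at hy
    exact ⟨y, hy, hy0, hyN⟩
  · intro c hc
    have := hup (2 * r + 1) c hc
    push_cast at this
    linarith

end

end Pool.Agent.V8H91.TP
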