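import Pool.Agent.Y163.MW.Asm
import Pool.Agent.Y48.MW.G

set_option autoImplicit false
set_option linter.unusedSectionVars false

/-!
# Existence of the monodromy filtration; elements of the kernel of the lowering operator
-/

open Module TensorProduct

namespace Pool.Agent.V8H91.TP

universe u v w

open Pool.Agent.Y143 Pool.Agent.Y163.MW

section

variable {Ω : Type w} [Field Ω] [CharZero Ω] {V : Type v} [AddCommGroup V] [Module Ω V]
  {N : Module.End Ω V} {I : Type} {b : Basis I Ω V} {a : I → ℤ} {e h : Module.End Ω V}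

/-- The weight spaces of `h`. -/
def wsp (h : Module.End Ω V) (c : ℤ) : Submodule Ω V := h.eigenspace (c : Ω)

lemma mem_wsp {c : ℤ} {x : V} : x ∈ wsp h c ↔ h x = (c : Ω) • x := Module.End.mem_eigenspace_iff

lemma indep_wsp (h : Module.End Ω V) : iSupIndep (wsp h) :=
  (Module.End.eigenspaces_iSupIndep h).comp (f := fun c : ℤ => (c : Ω)) Int.cast_injective

lemma basis_mem (H : IsSl2 N b a e h) (i : I) : b i ∈ wsp h (a i) := mem_wsp.2 (H.wt i)

lemma iSup_wsp (H : IsSl2 N b a e h) : ⨆ c, wsp h c = ⊤ := by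
  rw [eq_top_iff, ← b.span_eq, Submodule.span_le]
  rintro _ ⟨i, rfl⟩
  exact Submodule.mem_iSup_of_mem (a i) (basis_mem H i)

lemma N_wsp (H : IsSl2 N b a e h) (c : ℤ) : ∀ x ∈ wsp h c, N x ∈ wsp h (c - 2) := by
  intro x hx
  rw [mem_wsp] at hx ⊢
  have h1 := LinearMap.congr_fun H.hN x
  rw [LinearMap.sub_apply, Module.End.mul_apply, Module.End.mul_apply, hx, map_smul,
    LinearMap.smul_apply, sub_eq_iff_eq_add] at h1
  rw [h1, ← add_smul]
  congr 1
  push_cast
  ring

lemma centred_wsp [Fintype I] (H : IsSl2 N b a e h) : Centred (wsp h) N := by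
  intro m
  obtain ⟨h1, h2⟩ := Pool.Agent.Y141.MW.stL Ω V N I b a e h H m
  refine ⟨fun x hx => h1 x ?_, fun y hy => ?_⟩
  · have := mem_wsp.1 hx
    simpa using this
  · obtain ⟨x, hx, hxy⟩ := h2 y (by have := mem_wsp.1 hy; simpa using this)
    exact ⟨x, mem_wsp.2 (by simpa using hx), hxy⟩

/-- There is a monodromy filtration. -/
theorem exists_mon [IsAlgClosed Ω] [Fintype I] (H : IsSl2 N b a e h) :
    ∃ M, IsMonodromyFiltrationOn ⊤ N M := by
  have hfin : Module.Finite Ω V := Module.Finite.of_basis b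
  have hspan : ∀ c, wsp h c = Submodule.span Ω (b '' {i | a i = c}) :=
    fun c => gr_eq_span (indep_wsp h) b a (basis_mem H) c
  let F : Module.End Ω V := b.constr Ω (fun i => (2 : Ω) ^ (a i) • b i)
  have hF : ∀ c, ∀ x ∈ wsp h c, F x = (2 : Ω) ^ c • x := by
    intro c x hx
    rw [hspan] at hx
    induction hx using Submodule.span_induction with
    | mem x hx =>
      obtain ⟨i, hi, rfl⟩ := hx
      have hi' : a i = c := hi
      rw [Basis.constr_basis, hi']
    | zero => simp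
    | add x y _ _ hx hy => rw [map_add, hx, hy, smul_add]
    | smul t x _ hx => rw [map_smul, hx, smul_comm]
  have h2 : (2 : Ω) ≠ 0 := two_ne_zero
  have h4 : (4 : Ω) ≠ 0 := by norm_num
  have hNF : ∀ x ∈ (⊤ : Submodule Ω V), N (F x) = (4 : Ω) • F (N x) := by
    have h3 : N * F = (4 : Ω) • (F * N) := by
      apply b.ext
      intro i
      rw [Module.End.mul_apply, LinearMap.smul_apply, Module.End.mul_apply,
        hF _ _ (basis_mem H i), hF _ _ (N_wsp H _ _ (basis_mem H i)), map_smul, smul_smul]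
      congr 1
      rw [zpow_sub₀ h2]
      norm_num
      field_simp
    intro x _
    exact LinearMap.congr_fun h3 x
  have hu : ∀ (c c' : ℤ) (α : Ω), α = 2 ^ c → α = 2 ^ c' → c = c' := by
    intro c c' α hc hc'
    rw [hc] at hc'
    have h4 : ((2 : ℚ) ^ c) = (2 : ℚ) ^ c' := by
      have : (((2 : ℚ) ^ c : ℚ) : Ω) = (((2 : ℚ) ^ c' : ℚ) : Ω) := by
        push_cast
        exact hc'
      exact_mod_cast this
    exact zpow_right_injective₀ (by norm_num) (by norm_num) h4
  have hev : ∀ (c : ℤ) (α : Ω) (x : V), x ∈ wsp h c → x ≠ 0 → F x = α • x → α = 2 ^ c := by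
    intro c α x hx h0 hx'
    rw [hF c x hx] at hx'
    exact (smul_left_injective Ω h0 hx').symm
  obtain ⟨M, hM, -⟩ := (Pool.Agent.Y48.MW.t_G Ω V ⊤ (wsp h) F N (4 : Ω) (fun c α => α = 2 ^ c)
    (iSup_wsp H) (indep_wsp h) (fun c x hx => by rw [hF c x hx]; exact Submodule.smul_mem _ _ hx)
    (N_wsp H) h4 hNF hev hu).2 (centred_wsp H)
  exact ⟨M, hM⟩

/-- A nonzero element of the kernel of `N` which is a combination of basis vectors `b i`,
`i ∈ T`: one of the weights `a i`, `i ∈ T`, is at most zero. -/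
theorem exists_nonpos [Fintype I] (H : IsSl2 N b a e h) {T : Set I} {z : V}
    (hz : z ∈ Submodule.span Ω (b '' T)) (h0 : z ≠ 0) (hN : N z = 0) : ∃ i ∈ T, a i ≤ 0 := by
  have hfin : Module.Finite Ω V := Module.Finite.of_basis b
  by_contra hcon
  push Not at hcon
  obtain ⟨π, p1, p2, p3⟩ := Pool.Agent.Y48.MW.exists_comp (indep_wsp h)
  have hzt : z ∈ ⨆ c, wsp h c := by rw [iSup_wsp H]; exact Submodule.mem_top
  apply h0
  refine Pool.Agent.Y48.MW.eq_zero_of p2 p3 (WellFoundedGT.finite_ne_bot_of_iSupIndep (indep_wsp h))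
    hzt fun c _ => ?_
  rcases le_or_gt c 0 with hc | hc
  · have h1 : Submodule.span Ω (b '' T) ≤ LinearMap.ker (π c) := by
      rw [Submodule.span_le]
      rintro _ ⟨i, hi, rfl⟩
      have := hcon i hi
      exact LinearMap.mem_ker.2 (p3 c (a i) (by omega) _ (basis_mem H i))
    exact LinearMap.mem_ker.1 (h1 hz)
  · have h1 : N (π c z) = 0 := by
      rw [Pool.Agent.Y48.MW.comm_of p2 p3 N 2 (N_wsp H) hzt c, hN, map_zero]
    obtain ⟨k, rfl⟩ : ∃ k : ℕ, c = (k : ℤ) := ⟨c.toNat, by omega⟩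
    refine ((centred_wsp H) k).1 _ (p1 _ z) ?_
    obtain ⟨j, rfl⟩ : ∃ j, k = j + 1 := ⟨k - 1, by omega⟩
    rw [pow_succ, Module.End.mul_apply, h1, map_zero]

end

end Pool.Agent.V8H91.TP
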