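import Pool.Agent.V8H91.TP.Mon
import Pool.Agent.V8H91.ML.Mom

set_option autoImplicit false
set_option linter.unusedSectionVars false

/-!
# The kernel of the monodromy operator on the powers of a variety
-/

open Module TensorProduct

namespace Pool.Agent.V8H91.TP

universe u v w

open Pool.Agent.Y143 Pool.Agent.Y136.UB Pool.Agent.Y163.MW Pool.Agent.Y163.MW.Coh
  Pool.Agent.H914

section

variable {Ω : Type w} [Field Ω] [CharZero Ω]

/-- The deviations of `H^*`: the integers `d` such that for some `s` the part of the cohomology of excess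
`s + d` (that is, of weight `m + s + d` in `H^m`) occurs in the graded piece `M_s / M_(s - 1)` of the
monodromy filtration. -/
def Deviation (R : Coh.{v, w} Ω) (q : ℕ) : Set ℤ :=
  {d | ∃ (M : ℤ → Submodule Ω R.V) (s : ℤ), IsMonodromyFiltrationOn ⊤ R.N M ∧
    ¬ (R.tot q (s + d) ⊓ M s ≤ M (s - 1))}

/-- The excesses of the weights of the kernel of `N`: the integers `c` such that for some `m` some
eigenvalue of `F` on the kernel of `N` on `H^m` has weight `m + c`. -/
def InvExcess (R : Coh.{v, w} Ω) (q : ℕ) : Set ℤ :=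
  {c | ∃ (m : ℕ) (x : R.V) (α : Ω), x ∈ R.gr m ∧ x ≠ 0 ∧ R.N x = 0 ∧ R.F x = α • x ∧
    IsWeilNumber q (m + c) α}

variable {R R' R'' : Coh.{v, w} Ω} {q : ℕ}

lemma mem_span_image_iff {K : Type*} [Field K] {V : Type*} [AddCommGroup V] [Module K V]
    {I : Type*} (b : Basis I K V) (T : Set I) (i : I) :
    b i ∈ Submodule.span K (b '' T) ↔ i ∈ T := by
  rw [b.mem_span_image]
  constructor
  · intro h
    exact h (by simp)
  · intro h j hj
    have : j = i := by
      by_contra hne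
      rw [Finset.mem_coe, Finsupp.mem_support_iff, Basis.repr_self,
        Finsupp.single_eq_of_ne hne] at hj
      exact hj rfl
    rw [this]
    exact h

/-- The deviations in terms of an adapted basis. -/
theorem mem_deviation [IsAlgClosed Ω] (hq : 1 < q) (hR : R.IsCoh q) {I : Type} [Fintype I]
    {a c : I → ℤ} (H : R.Adp q a c) (d : ℤ) : d ∈ Deviation R q ↔ ∃ i, c i - a i = d := by
  obtain ⟨b, e, h, hs, hb⟩ := H
  have key : ∀ M, IsMonodromyFiltrationOn ⊤ R.N M → ∀ s,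
      (¬ (R.tot q (s + d) ⊓ M s ≤ M (s - 1)) ↔ ∃ i, c i = s + d ∧ a i = s) := by
    intro M hM s
    have h1 := Pool.Agent.Y68.MW.stD Pool.Agent.Y141.MW.stL Ω R.V R.N I b a e h hs M hM
    rw [h1, h1, gr_eq_span (indep_tot hq hR) b c hb, span_image_inf]
    constructor
    · intro hn
      by_contra hcon
      push Not at hcon
      apply hn
      apply Submodule.span_mono
      apply Set.image_mono
      rintro i ⟨hi1, hi2⟩
      have h2 := hcon i hi1
      have h3 : a i ≤ s := hi2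
      show a i ≤ s - 1
      omega
    · rintro ⟨i, hi1, hi2⟩ hle
      have h2 := hle (Submodule.subset_span ⟨i, ⟨hi1, hi2.le⟩, rfl⟩)
      have h3 : a i ≤ s - 1 := (mem_span_image_iff b _ i).1 h2
      omega
  constructor
  · rintro ⟨M, s, hM, h⟩
    obtain ⟨i, hi1, hi2⟩ := (key M hM s).1 h
    exact ⟨i, by omega⟩
  · rintro ⟨i, hi⟩
    obtain ⟨M, hM⟩ := exists_mon hs
    exact ⟨M, a i, hM, (key M hM (a i)).2 ⟨i, by omega, rfl⟩⟩

/-- The excesses in terms of the parts of given excess. -/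
theorem mem_invExcess [IsAlgClosed Ω] (hq : 1 < q) (hR : R.IsCoh q) (c : ℤ) :
    c ∈ InvExcess R q ↔ ∃ z ∈ R.tot q c, z ≠ 0 ∧ R.N z = 0 := by
  classical
  have hfin := hR.finite
  constructor
  · rintro ⟨m, x, α, hx, h0, hN, hF, hα⟩
    refine ⟨x, exc_le_tot m c ?_, h0, hN⟩
    refine Submodule.mem_iSup_of_mem α (Submodule.mem_iSup_of_mem hα ?_)
    refine Submodule.mem_inf.2 ⟨hx, mem_gen.2 ⟨1, ?_⟩⟩
    rw [pow_one, LinearMap.sub_apply, Module.algebraMap_end_apply, hF, sub_self]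
  · rintro ⟨z, hz, h0, hN⟩
    obtain ⟨f, hf, hfz⟩ := (Submodule.mem_iSup_iff_exists_finsupp _ _).1 hz
    have hind := hR.isInternal.submodule_iSupIndep
    rw [iSupIndep_iff_finsetSum_eq_zero_imp_eq_zero] at hind
    have h1 : ∀ m ∈ f.support, R.N (f m) = 0 := by
      apply hind f.support (fun m => R.N (f m))
      · intro m _
        exact hR.N_gr m _ (exc_le m c (hf m))
      · rw [← map_sum]
        have : ∑ m ∈ f.support, f m = z := hfz
        rw [this, hN]
    obtain ⟨m, hm⟩ : ∃ m, f m ≠ 0 := by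
      by_contra hcon
      push Not at hcon
      apply h0
      rw [← hfz]
      exact Finset.sum_eq_zero fun m _ => hcon m
    have h2 : f m ∈ R.exc q m c ⊓ LinearMap.ker R.N :=
      ⟨hf m, LinearMap.mem_ker.2 (h1 m (Finsupp.mem_support_iff.2 hm))⟩
    have hst : ∀ x ∈ R.exc q m c ⊓ LinearMap.ker R.N, R.F x ∈ R.exc q m c ⊓ LinearMap.ker R.N := by
      intro x hx
      refine ⟨F_exc hR m c x hx.1, ?_⟩
      refine LinearMap.mem_ker.2 ?_
      rw [hR.N_F, LinearMap.mem_ker.1 hx.2, map_zero, smul_zero]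
    have hnt : Nontrivial (R.exc q m c ⊓ LinearMap.ker R.N : Submodule Ω R.V) :=
      ⟨⟨⟨f m, h2⟩, 0, fun h => hm (congrArg Subtype.val h)⟩⟩
    obtain ⟨α, hα⟩ := Module.End.exists_eigenvalue (R.F.restrict hst)
    obtain ⟨y, hy⟩ := hα.exists_hasEigenvector
    have hy0 : (y : R.V) ≠ 0 := fun h => hy.2 (Subtype.ext h)
    have hyF : R.F (y : R.V) = α • (y : R.V) := congrArg Subtype.val hy.apply_eq_smul
    exact ⟨m, y, α, exc_le m c y.2.1, hy0, LinearMap.mem_ker.1 y.2.2, hyF,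
      eigen_exc hq hR y.2.1 hy0 hyF⟩

/-- The upper bound. -/
theorem excess_le [IsAlgClosed Ω] (hq : 1 < q) (hR : R.IsCoh q) {I : Type} [Fintype I]
    {a c : I → ℤ} (H : R.Adp q a c) {D : ℤ} (hD : ∀ i, c i - a i ≤ D) {r : ℤ}
    (hr : r ∈ InvExcess R q) : r ≤ D := by
  obtain ⟨z, hz, h0, hN⟩ := (mem_invExcess hq hR r).1 hr
  obtain ⟨b, e, h, hs, hb⟩ := H
  rw [gr_eq_span (indep_tot hq hR) b c hb] at hz
  obtain ⟨i, hi, hi0⟩ := exists_nonpos hs hz h0 hN
  have h1 := hD i
  have h2 : c i = r := hi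
  omega

lemma tmul_ne {K : Type*} [Field K] {V V' : Type*} [AddCommGroup V] [Module K V]
    [AddCommGroup V'] [Module K V'] {x : V} {y : V'} (hx : x ≠ 0) (hy : y ≠ 0) :
    x ⊗ₜ[K] y ≠ 0 := by
  intro h
  apply hx
  rw [← Module.forall_dual_apply_eq_zero_iff K]
  intro f
  by_contra hf
  apply hy
  have h1 := congrArg (TensorProduct.lid K V' ∘ TensorProduct.map f LinearMap.id) h
  have h2 : f x • y = 0 := by simpa using h1
  exact (smul_eq_zero.1 h2).resolve_left hf

/-- Elements of the kernel of `N` on a product. -/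
theorem lemP (hq : 0 < q) {κ : R.V ⊗[Ω] R'.V ≃ₗ[Ω] R''.V} (hκ : IsKunneth R R' R'' κ)
    {x : R.V} {y : R'.V} {k : ℕ} (hx : (R.N ^ (k + 1)) x = 0) (hx0 : (R.N ^ k) x ≠ 0)
    (hy : (R'.N ^ (k + 1)) y = 0) (hy0 : (R'.N ^ k) y ≠ 0) {c c' : ℤ} (hc : x ∈ R.tot q c)
    (hc' : y ∈ R'.tot q c') (hRN : ∀ c, ∀ x ∈ R.tot q c, R.N x ∈ R.tot q (c - 2))
    (hRN' : ∀ c, ∀ x ∈ R'.tot q c, R'.N x ∈ R'.tot q (c - 2)) :
    ∃ z ∈ R''.tot q (c + c' - 2 * k), z ≠ 0 ∧ R''.N z = 0 := by
  refine ⟨∑ a ∈ Finset.range (k + 1), (-1 : Ω) ^ a • tm κ ((R.N ^ a) x) ((R'.N ^ (k - a)) y),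
    ?_, ?_, ?_⟩
  · refine Submodule.sum_mem _ fun a ha => Submodule.smul_mem _ _ ?_
    have h1 := Pool.Agent.Y48.MW.pow_mem hRN a c x hc
    have h2 := Pool.Agent.Y48.MW.pow_mem hRN' (k - a) c' y hc'
    have h3 := kunneth_tot hq hκ h1 h2
    have ha' : a ≤ k := by have := Finset.mem_range.1 ha; omega
    rwa [show c - 2 * (a : ℤ) + (c' - 2 * ((k - a : ℕ) : ℤ)) = c + c' - 2 * k by
      push_cast [ha']; ring] at h3
  · intro h0
    let Φ : R''.V →ₗ[Ω] R''.V := κ.toLinearMap ∘ₗ (TensorProduct.map (R.N ^ k) LinearMap.id) ∘ₗ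
      κ.symm.toLinearMap
    have hΦ : ∀ u v, Φ (tm κ u v) = tm κ ((R.N ^ k) u) v := by
      intro u v
      simp [Φ, tm]
    have h1 := congrArg Φ h0
    rw [map_sum, map_zero, Finset.sum_range_succ', Finset.sum_eq_zero, zero_add, pow_zero,
      one_smul, hΦ, pow_zero, Module.End.one_apply, Nat.sub_zero] at h1
    · have h2 : ((R.N ^ k) x) ⊗ₜ[Ω] ((R'.N ^ k) y) = 0 := κ.injective (by
        rw [map_zero]
        exact h1)
      exact tmul_ne hx0 hy0 h2
    · intro a _
      rw [map_smul, hΦ, ← Module.End.mul_apply, ← pow_add,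
        show k + (a + 1) = a + (k + 1) by ring, pow_add (R.N), Module.End.mul_apply, hx, map_zero]
      unfold tm
      rw [TensorProduct.zero_tmul, map_zero, smul_zero]
  · let g : ℕ → R''.V := fun a => (-1 : Ω) ^ a • tm κ ((R.N ^ a) x) ((R'.N ^ (k + 1 - a)) y)
    have hg : ∀ a ∈ Finset.range (k + 1), R''.N ((-1 : Ω) ^ a • tm κ ((R.N ^ a) x)
        ((R'.N ^ (k - a)) y)) = g a - g (a + 1) := by
      intro a ha
      have ha' : a ≤ k := by have := Finset.mem_range.1 ha; omega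
      have h1 : R'.N ((R'.N ^ (k - a)) y) = (R'.N ^ (k + 1 - a)) y := by
        rw [← Module.End.mul_apply, ← pow_succ', show k - a + 1 = k + 1 - a by omega]
      have h2 : R.N ((R.N ^ a) x) = (R.N ^ (a + 1)) x := by
        rw [← Module.End.mul_apply, ← pow_succ']
      rw [map_smul, hκ.monodromy, h1, h2]
      simp only [g]
      rw [show k + 1 - (a + 1) = k - a by omega, smul_add, pow_succ (-1 : Ω), mul_neg_one,
        neg_smul]
      abel
    rw [map_sum, Finset.sum_congr rfl hg, Finset.sum_range_sub']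
    simp only [g]
    rw [pow_zero, one_smul, Nat.sub_zero, hy, hx]
    unfold tm
    rw [TensorProduct.zero_tmul, TensorProduct.tmul_zero, map_zero, smul_zero, sub_zero]

lemma lemQ {κ : R.V ⊗[Ω] R'.V ≃ₗ[Ω] R''.V} (hκ : IsKunneth R R' R'' κ) {y : R'.V}
    (hy : R'.N y = 0) (x : R.V) (b : ℕ) : (R''.N ^ b) (tm κ x y) = tm κ ((R.N ^ b) x) y := by
  induction b with
  | zero => simp
  | succ b ih =>
    rw [pow_succ', Module.End.mul_apply, ih, hκ.monodromy, hy]
    unfold tm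
    rw [TensorProduct.tmul_zero, map_zero, add_zero, pow_succ' (R.N), Module.End.mul_apply]

end

end Pool.Agent.V8H91.TP
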